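import Pool.Agent.Q153.FreeLC

/-!
For a metrizable space `X`, the space `sp_2(X)` is a `k`-space only if `X` is locally compact and
separable, and then `V(X)` and all spaces `sp_n(X)` are `k_ω`-spaces.
-/

set_option autoImplicit false

namespace Pool.Agent.Results.MP_24cde2_gt.KProperty

open Pool.Agent.Q153.FreeTVS Pool.Agent.Q153.KOmega Pool.Agent.Q153.FreeK

/-- Let `X` be metrizable and let `V` with `i : X → V` be the free (Hausdorff) topological vector
space over `X`. Then `sp_2(X)` is a `k`-space if and only if `X` is locally compact and separable, and in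
this case `V` and all the spaces `sp_n(X)` (for instance `sp_4(X)`) are `k_ω`-spaces, hence
`k`-spaces. -/
theorem result {X V : Type} [TopologicalSpace X] [TopologicalSpace.MetrizableSpace X]
    [AddCommGroup V] [Module ℝ V] [TopologicalSpace V] [IsTopologicalAddGroup V]
    [ContinuousSMul ℝ V] [T2Space V] {i : X → V} (hi : IsFreeTVS i) :
    (IsKSpace (sp i 2) ↔ LocallyCompactSpace X ∧ TopologicalSpace.SeparableSpace X) ∧
    (IsKSpace (sp i 2) → IsKOmega V ∧ ∀ n, IsKOmega (sp i n) ∧ IsKSpace (sp i n)) := by
  let _ := TopologicalSpace.metrizableSpaceMetric X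
  have h1 : IsKSpace (sp i 2) → LocallyCompactSpace X ∧ TopologicalSpace.SeparableSpace X := by
    intro h
    have := weaklyLocallyCompact_of_isKSpace hi le_rfl h
    exact ⟨inferInstance, separable_of_isKSpace hi le_rfl h⟩
  have h2 : LocallyCompactSpace X ∧ TopologicalSpace.SeparableSpace X →
      IsKOmega V ∧ ∀ n, IsKOmega (sp i n) := by
    rintro ⟨_, _⟩
    have : SecondCountableTopology X := UniformSpace.secondCountable_of_separable X
    exact isKOmega_free hi
  exact ⟨⟨h1, fun h => ((h2 h).2 2).isKSpace⟩, fun h =>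
    ⟨(h2 (h1 h)).1, fun n => ⟨(h2 (h1 h)).2 n, ((h2 (h1 h)).2 n).isKSpace⟩⟩⟩

end Pool.Agent.Results.MP_24cde2_gt.KProperty
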